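import Mathlib
import Pool.Agent.R845.CL.Stm

/-!
# The conjecture of Galkin and Shinder for line-ruled parametrizations

Let `X` be a smooth cubic fourfold, `F(X)` its variety of lines, and `A(X)` the group of Hodge
classes in `H^4(X, ℤ)`. We consider families of rational curves on `X` whose images under the
projection from some linear subspace `W` of `X` (empty, a point, a line, or a plane) are lines or
points: for `W` empty lines, for a point `W` conics through `W` or nodal plane cubics with the node
`W`, for a line `W` conics which meet `W`, twisted cubics which meet `W` twice, ..., for a plane `W`
all the multisections of the restriction of the quadric surface bundle to lines, and also all the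
curves in its fibres.

If `X` has a rational parametrization, or a unirational parametrization of odd degree, by such a
family, then `F(X)` is birational to the Hilbert square of a K3 surface, by the criterion of
Addington (`HasHilbertSquare`: there is a Hodge class `v` with
`3 v.v - (h.v)^2 = 2 n^2 + 2 n + 2`). Conversely, if `A(X)` is generated by `h`, the classes of the
planes of `X`, and a group `N` of classes whose discriminants `3 v.v - (h.v)^2` are divisible by four
(for instance by the planes alone), and `F(X)` is birational to the Hilbert square of a K3
surface, then `X` has a rational parametrization of this kind.

The parametrizations are treated without any hypothesis by the classification in project CL; the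
known facts which are used are collected in `H4.IsCohomology` (starting files: the lattice
`H^4(X, ℤ)`, the classes of the planes) and `SectionCriterion` (Hassett: the quadric surface bundle of
the plane `P` has a rational section if and only if `T.(h - P)` is odd for some `T`).
-/

set_option autoImplicit false

namespace Pool.Agent.Results.MP_4d0966_ag.LineRuledHilbertSquares

open Pool.Agent.Y95.Q Pool.Agent.R915.Q Pool.Agent.R845.CL.Stm

/-- Let `X` be a smooth cubic fourfold. (1) If `X` has a family of rational curves of odd degree
over lines with respect to the projection from some linear subspace of `X`, then `F(X)` is
birational to the Hilbert square of a K3 surface. (2) If `A(X)` is generated by `h`, the planes and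
a group `N` of classes with discriminants divisible by four, then `F(X)` is birational to the
Hilbert square of a K3 surface if and only if `X` has a birational parametrization of this kind. -/
theorem result {X : CubicFourfold} {H : H4 X} (hH : H.IsCohomology) (hS : SectionCriterion H) :
    (OddLineRuled X → HasHilbertSquare H) ∧
    (∀ N : AddSubgroup (Fin 23 → ℤ), (∀ v ∈ N, H.IsHodge v ∧ 4 ∣ H.disc v) →
      (∀ v, H.IsHodge v → v ∈ AddSubgroup.closure (insert H.h (Set.range H.cl)) ⊔ N) →
      (HasHilbertSquare H ↔ BirationalLineRuled X)) := by
  have hm := main hS
  have h1 : OddLineRuled X → HasHilbertSquare H := fun h =>
    hilb_of_odd hH ((hm.out 0 2).1 h)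
  refine ⟨h1, fun N hN hgen => ⟨fun h => ?_, fun h => ?_⟩⟩
  · have h2 := odd_of_K3 hH N hN hgen (hasK3_of_hasHilbertSquare hH h)
    exact (hm.out 2 1).1 h2
  · exact h1 ((hm.out 1 0).1 h)

end Pool.Agent.Results.MP_4d0966_ag.LineRuledHilbertSquares
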