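import Pool.Agent.R907.Cub.Hilb5

/-!
# MP_4d0966_ag: in rank at least five the criterion is the one of Hassett and Kuznetsov

Let `X` be a smooth cubic fourfold, `A(X)` the group of Hodge classes in `H^4(X, ℤ)`, `ρ` its rank
and `d(v) = 3 v.v - (h.v) ^ 2`. There are two criteria for the rational cubic fourfolds:

* (***) `F(X)` is birational to the Hilbert square of a K3 surface (Galkin and Shinder; this is the
  conjecture in the problem). By a theorem of Addington this means that `X` lies in `𝒞_d` for a
  number `d = (2 n ^ 2 + 2 n + 2) / a ^ 2`;
* (**) `X` has an associated K3 surface (Hassett, Kuznetsov). By a theorem of Hassett this means that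
  `X` lies in `𝒞_d` for an admissible `d`, i.e. `d > 6` is not divisible by `4`, `9` or an odd prime
  number `p ≡ 2 mod 3`.

(***) implies (**), but they are different: `74` is admissible, and if `X` is general in `𝒞_74`, then
`F(X)` is not birational to a Hilbert square (Addington). There are also such `X` with `ρ = 3`, even
with infinitely many associated K3 surfaces (`RankThreeExamples`).

**Theorem.** Suppose that `ρ ≥ 5`, or that `ρ = 4` and `X` lies in `𝒞_d` for some `d = 2 a ^ 2` (more
precisely, some `d(v)` is `2 a ^ 2`, `a ≠ 0`). Then (***) and (**) are equivalent. They are also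
equivalent to the existence of a Hodge class `y` with `y.y = (h.y + 1) ^ 2 + 1`, and to the following
local condition: for each prime number `p` there is a Hodge class `v`, depending on `p`, such that
`d(v)` is not divisible by `4` (`p = 2`), is not divisible by `3` or is `6` modulo `18` (`p = 3`), is
not divisible by `p` (`p` odd, `p ≡ 2 mod 3`).

So for the cubic fourfolds with `ρ ≥ 5` the conjecture of Galkin and Shinder is equivalent to the
conjecture of Hassett and Kuznetsov, and both say that `X` is rational unless there is one obstructing
prime number.

The known facts on cubic fourfolds which are used are collected in `H4.IsCohomology` (starting files).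
Nothing else is assumed.

Idea of the proof: a class `y` as above is the same thing as a class `u = h + 2 y` in the coset
`h + 2 A(X)` with `q(u) = 2`, `q(u) = u.u - (h.u) ^ 2`, and this form is indefinite. If `d(v)` satisfies
the condition at `p`, then there is a `p`-adic solution in the group spanned by `h` and `v`. By the
theorem of Meyer (`Pool.Agent.R847.QB`, helper847) there is an isotropic vector `e` if `ρ ≥ 5`. Now the
local-global principle is proved as follows (`Pool.Agent.R907.Cub.Strong`). One glues the local solutions
to a class `u`, such that `(u, e)` is `s l` with a prime number `l` (Dirichlet) and a number `s` which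
divides a fixed number. Then one changes `u` by orthogonal vectors `u₁`, `u₂` in `e^⊥` such that
`q(u) = 2` modulo `l`, and finally by a multiple of `e`.
-/

set_option autoImplicit false

namespace Pool.Agent.Results.MP_4d0966_ag.RankAtLeastFive

open Pool.Agent.Y95.Q Pool.Agent.R907.Cub

/-- **In rank at least five the Hilbert square criterion and the K3 criterion are equivalent.** -/
theorem result {X : CubicFourfold} {H : H4 X} (hH : H.IsCohomology)
    (hρ : 5 ≤ H.rank ∨ 4 ≤ H.rank ∧ ∃ v a, H.IsHodge v ∧ a ≠ 0 ∧ H.disc v = 2 * a ^ 2) :
    List.TFAE [HasHilb H, H.HasK3, LocallyAdmissible H,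
      ∃ y, H.IsHodge y ∧ H.ip y y = (H.ip H.h y + 1) ^ 2 + 1] := by
  have h := tfae_hilb_five hH hρ
  tfae_have 2 ↔ 3 := h.out 0 1
  tfae_have 2 ↔ 1 := h.out 0 2
  tfae_have 2 ↔ 4 := h.out 0 3
  tfae_finish

end Pool.Agent.Results.MP_4d0966_ag.RankAtLeastFive
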