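import Pool.Agent.R907.Cub.Three

/-!
# MP_4d0966_ag: cubic fourfolds of rank three with infinitely many associated K3 surfaces and no
# Hilbert square

Let `X` be a smooth cubic fourfold, `A(X)` the group of Hodge classes in `H^4(X, ℤ)`, `ρ` its rank
and `d(v) = 3 v.v - (h.v) ^ 2`. There are two criteria for the rational cubic fourfolds:

* (***) `F(X)` is birational to the Hilbert square of a K3 surface (Galkin and Shinder; this is the
  conjecture in the problem). By a theorem of Addington this means that `X` lies in `𝒞_d` for a
  number `d = (2 n ^ 2 + 2 n + 2) / a ^ 2`;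
* (**) `X` has an associated K3 surface (Hassett, Kuznetsov). By a theorem of Hassett this means that
  `X` lies in `𝒞_d` for an admissible `d`.

It is known that for the general `X` in `𝒞_74` (`ρ = 2`) the second criterion is satisfied and the
first is not (Addington). Such an `X` lies in only one divisor `𝒞_d`, and it is one number `d` which
is admissible but not of the form in (***).

**Theorem.** Let `s`, `t` be coprime integers, `s` odd and `t` not divisible by three. If `A(X)` is the
lattice `⟨3⟩ + ⟨8 t ^ 2⟩ + ⟨18 s ^ 2⟩`, where `h` generates the first summand, then `X` lies in `𝒞_d`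
for infinitely many admissible `d`, but in no `𝒞_d` with `d = (2 n ^ 2 + 2 n + 2) / a ^ 2`.

So `X` has associated K3 surfaces of infinitely many degrees, but `F(X)` is not birational to the
Hilbert square of a K3 surface: the conjecture of Hassett and Kuznetsov predicts that `X` is
rational, the conjecture of Galkin and Shinder predicts that `X` is not rational. (By the
surjectivity of the period map there are such cubic fourfolds, for all `s`, `t`; for each `s`, `t`
they form a family of codimension two. This is not used.)

The known facts on cubic fourfolds which are used (the form is symmetric, `h` is a Hodge class and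
`h.h = 3`) are among those collected in `H4.IsCohomology` (starting files). Nothing else is assumed.

Idea of the proof: a `d` as in (***) gives integers `a`, `b`, `c` with
`8 a ^ 2 + 18 b ^ 2 = 6 c ^ 2 + 6 c + 2`, i.e. `(4 a - 1) (4 a + 1) = 3 ((2 c + 1) ^ 2 - 12 b ^ 2)`.
Prime numbers `≡ 5, 7 mod 12` divide `m ^ 2 - 12 b ^ 2` to an even power. So the factor `4 a ± 1`
which is not divisible by `3` is `1` or `11` modulo `12` for `a > 0`, and it follows that `3` divides
`a`, a contradiction. This is an obstruction of Brauer-Manin type: the equation has solutions modulo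
each `m`. For the admissible numbers, let `B` be divisible by `3 s` with `B ^ 2 ≡ 1 mod 2 t`, and
`x = (B ^ 2 - 1) / (2 t)`, `y = B / (3 s)`. Then `h` and `x v + y w` span a saturated group of
discriminant `6 (B ^ 4 - B ^ 2 + 1)`, and this number is admissible, since the prime divisors of
`u ^ 2 - u + 1` other than `3` are `≡ 1 mod 3`.
-/

set_option autoImplicit false

namespace Pool.Agent.Results.MP_4d0966_ag.RankThreeExamples

open Pool.Agent.Y95.Q Pool.Agent.R907.Cub

/-- **Infinitely many associated K3 surfaces and no Hilbert square.** -/
theorem result {X : CubicFourfold} {H : H4 X} (hH : H.IsCohomology)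
    {s t : ℤ} (hs : Odd s) (ht : ¬ 3 ∣ t) (hst : IsCoprime s t)
    {v w : Fin 23 → ℤ} (hv : H.IsHodge v) (hw : H.IsHodge w) (hhv : H.ip H.h v = 0)
    (hhw : H.ip H.h w = 0) (hvw : H.ip v w = 0) (hvv : H.ip v v = 8 * t ^ 2)
    (hww : H.ip w w = 18 * s ^ 2)
    (hall : ∀ x, H.IsHodge x → ∃ a b c : ℤ, x = a • H.h + b • v + c • w) :
    InfinitelyManyK3 H ∧ ¬ HasHilb H :=
  three_examples hH hs ht hst hv hw hhv hhw hvw hvv hww hall

end Pool.Agent.Results.MP_4d0966_ag.RankThreeExamples
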