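import Pool.Agent.R915.Q3

/-!
# The Hilbert square criterion on `𝒞_8`, `𝒞_18` and `𝒞_(2 s^2)`

Let `X` be a smooth cubic fourfold, `A(X)` the group of the Hodge classes in `H^4(X, ℤ)`, and
`disc v = 3 v.v - (h.v)^2` for `v` in `A(X)`. By a theorem of Addington the variety of lines `F(X)` is
birational to the Hilbert square `S^[2]` of a K3 surface if and only if `A(X)` contains a class of
discriminant `2 n^2 + 2 n + 2` (`HasHilbertSquare`; this means that `X` lies in `𝒞_d` with
`a^2 d = 2 n^2 + 2 n + 2`). This criterion of Galkin and Shinder is in general stronger than the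
criterion of Hassett and Kuznetsov (`HasK3`); they differ for the very general member of `𝒞_74`.
It is proved:

1. if `X` lies in `𝒞_8` (contains a plane), then both criteria are equivalent to each
   other and to: `A(X)` contains a class `v` with `4 ∤ disc v`;
2. if `X` lies in `𝒞_18`, then both criteria are equivalent to each other and to: `A(X)` contains
   a class `v` with `disc v` not congruent to `0` or `3` modulo `9`;
3. if `X` lies in `𝒞_d` for `d = 2 s^2`, with a class `u` of discriminant `2 s^2`, and there is a class
   `v` such that `3 u.v - (h.u)(h.v)` is prime to `s`, then `F(X)` is birational to the Hilbert square of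
   a K3 surface;
4. for the cubic fourfolds which contain a plane `P` the conjecture of Galkin and Shinder is true in the
   following cases: (a) there is a class `v` with `3 P.v - h.v` odd (Hassett's rational cubic
   fourfolds), or there is a class `v` with `4 ∤ disc v` such that the discriminant of
   `⟨h, P, v⟩` is less than `128` (for example `disc v = 18` or `30`): then `X` is rational and `F(X)`
   is birational to a Hilbert square; (b) `A(X)` is generated by `h` and classes `w` such that the
   discriminant of `⟨h, P, w⟩` is at most `64`: then if `F(X)` is birational to a Hilbert square, `X` is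
   rational.

The known facts which are used are collected in `H4.IsCohomology` (starting files) and `KnownRational`
(the cubic fourfolds in `𝒞_14`, `𝒞_26`, `𝒞_38`, `𝒞_42` are rational: Beauville-Donagi,
Bolognesi-Russo-Staglianò, Russo-Staglianò).

Idea: `2 disc v - 3` has to be a square `m^2`. If `disc u = 2 s^2` and `v = x u + y T`, then
`2 disc v = 4 s^2 x^2 + ...` begins with a square, and for `m = 2 s x + k` the equation becomes
`4 x (s k - b y) = 2 c y^2 - k^2 - 3` with `b = b(u, T)`, `c = disc T`. So one looks for `k` odd and `y`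
such that `4 (s k - b y)` divides the right side.
-/

set_option autoImplicit false

namespace Pool.Agent.Results.MP_4d0966_ag.TwoCriteria

open Pool.Agent.Y95.Q Pool.Agent.R915.Q

/-- **The Hilbert square criterion on `𝒞_8`, `𝒞_18`, `𝒞_(2 s^2)`, and the conjecture of Galkin and
Shinder for cubic fourfolds containing a plane.** Here `disc3 H (H.cl P) v` is the discriminant of
`⟨h, P, v⟩`, `bb H u v = 3 u.v - (h.u)(h.v)`, and `Small H P` consists of `h` and the Hodge classes
`w` such that the discriminant of `⟨h, P, w⟩` is at most `64`. -/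
theorem result {X : CubicFourfold} {H : H4 X} (hH : H.IsCohomology) :
    (∀ u, H.IsHodge u → H.disc u = 8 →
      (H.HasK3 ↔ HasHilbertSquare H) ∧
      (HasHilbertSquare H ↔ ∃ v, H.IsHodge v ∧ ¬ 4 ∣ H.disc v)) ∧
    (∀ u, H.IsHodge u → H.disc u = 18 →
      (H.HasK3 ↔ HasHilbertSquare H) ∧
      (HasHilbertSquare H ↔ ∃ v, H.IsHodge v ∧ H.disc v % 9 ≠ 0 ∧ H.disc v % 9 ≠ 3)) ∧
    (∀ (s : ℤ) (u v : Fin 23 → ℤ), H.IsHodge u → H.IsHodge v → H.disc u = 2 * s ^ 2 →
      IsCoprime s (bb H u v) → HasHilbertSquare H) ∧
    (KnownRational H → ∀ P : X.Plane,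
      (∀ v, H.IsHodge v →
        Odd (bb H (H.cl P) v) ∨ (¬ 4 ∣ H.disc v ∧ disc3 H (H.cl P) v < 128) →
        X.IsRational ∧ HasHilbertSquare H) ∧
      ((∀ v, H.IsHodge v → v ∈ AddSubgroup.closure (Small H P)) →
        HasHilbertSquare H → X.IsRational)) := by
  refine ⟨fun u hu h8 => ?_, fun u hu h18 => ?_,
    fun s u v hu hv hs hcop => hilb_of_square hH hu hs hv hcop, fun hR P => ⟨?_, ?_⟩⟩
  · obtain ⟨h1, h2⟩ := eight_iff hH hu h8
    exact ⟨h1.trans h2.symm, h2⟩
  · obtain ⟨h1, h2⟩ := eighteen_iff hH hu h18
    exact ⟨h1.trans h2.symm, h2⟩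
  · rintro v hv (hodd | ⟨h4, hD⟩)
    · exact of_odd hH P hv hodd
    · refine rational_of_small hH hR P hv h4 ?_
      have t := three_disc3 hH (H.cl P) v
      rw [disc_plane hH] at t
      linarith
  · intro hgen hK
    by_contra hcon
    obtain ⟨v, hv, _, _, h4, _⟩ := hasK3_of_hasHilbertSquare hH hK
    exact h4 (dichotomy hH hR P (fun h => hcon h.1) v (hgen v hv))

end Pool.Agent.Results.MP_4d0966_ag.TwoCriteria
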